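import Pool.Agent.Lib.MP_b1a3a4_al.MVS.HO.Iface

/-!
# Project MVS, part II: module SIG1

If `k` is of type `FP_1` over `k[G_χ]` then `G_χ` is coarsely connected.
-/

set_option linter.all false

namespace Pool.Agent.Lib.MP_b1a3a4_al.MVS.HO.H31

open scoped Classical

section

variable {k M : Type} [CommRing k] [Monoid M] (D : M → Prop)

/-- the indicator functional of a set of elements of the monoid -/
noncomputable def theta : MonoidAlgebra k M →+ k :=
  MonoidAlgebra.liftNC (AddMonoidHom.id k) (fun h => if D h then 1 else 0)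

lemma theta_single (u : M) (c : k) :
    theta D (MonoidAlgebra.single u c) = c * (if D u then 1 else 0) := by
  rw [theta, MonoidAlgebra.liftNC_single]
  rfl

lemma theta_mul (u : M) (c : k) (p : MonoidAlgebra k M)
    (hp : ∀ h ∈ p.coeff.support, (D (u * h) ↔ D u)) :
    theta D (MonoidAlgebra.single u c * p) = c * (if D u then 1 else 0) * aug k M p := by
  have h1 : p = ∑ g ∈ p.coeff.support, MonoidAlgebra.single g (p.coeff g) :=
    (MonoidAlgebra.sum_coeff_single p).symm
  have h2 : theta D (MonoidAlgebra.single u c * p) =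
      ∑ g ∈ p.coeff.support, c * (if D u then 1 else 0) * p.coeff g := by
    conv_lhs => rw [h1]
    rw [Finset.mul_sum, map_sum]
    refine Finset.sum_congr rfl fun g hg => ?_
    rw [MonoidAlgebra.single_mul_single, theta_single]
    by_cases h : D u
    · rw [if_pos h, if_pos ((hp g hg).2 h)]
      ring
    · rw [if_neg h, if_neg (fun h' => h ((hp g hg).1 h'))]
      ring
  have h3 : aug k M p = ∑ g ∈ p.coeff.support, p.coeff g := by
    conv_lhs => rw [h1]
    rw [map_sum]
    exact Finset.sum_congr rfl fun g _ => aug_single k M g _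
  rw [h2, h3, Finset.mul_sum]

variable {r : ℕ} (f : (Fin r →₀ MonoidAlgebra k M) →ₗ[MonoidAlgebra k M] Triv k M)

/-- the values of `f` on the basis -/
noncomputable def nn (i : Fin r) : k := f (Finsupp.single i 1)

lemma f_eq (x : Fin r →₀ MonoidAlgebra k M) :
    (show k from f x) = ∑ i, aug k M (x i) * nn f i := by
  have h1 : x = ∑ i, x i • Finsupp.single i (1 : MonoidAlgebra k M) := by
    ext1 j
    rw [Finsupp.finset_sum_apply, Finset.sum_eq_single j]
    · simp
    · intro i _ hij
      rw [Finsupp.smul_apply, Finsupp.single_eq_of_ne' hij, smul_zero]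
    · intro h
      exact absurd (Finset.mem_univ _) h
  conv_lhs => rw [h1]
  rw [map_sum]
  refine Finset.sum_congr rfl fun i _ => ?_
  rw [map_smul]
  rfl

/-- the functional `Φ_D` -/
noncomputable def Phi : (Fin r →₀ MonoidAlgebra k M) →+ k where
  toFun x := ∑ i, theta D (x i) * nn f i
  map_zero' := by simp
  map_add' x y := by
    simp only [Finsupp.add_apply, map_add, add_mul, Finset.sum_add_distrib]

lemma Phi_smul (u : M) (c : k) (x : Fin r →₀ MonoidAlgebra k M)
    (hx : ∀ i, ∀ h ∈ (x i).coeff.support, (D (u * h) ↔ D u)) :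
    Phi D f (MonoidAlgebra.single u c • x) =
      c * (if D u then 1 else 0) * (show k from f x) := by
  rw [f_eq, Finset.mul_sum]
  change ∑ i, theta D ((MonoidAlgebra.single u c • x) i) * nn f i = _
  refine Finset.sum_congr rfl fun i _ => ?_
  rw [Finsupp.smul_apply, smul_eq_mul, theta_mul D u c (x i) (hx i)]
  ring

end

/-- Module SIG1. -/
theorem sig1 : Sig1Statement := by
  intro k G _ _ _ χ hfp
  obtain ⟨r, f, hf, hfin⟩ := hfp
  have hfin' : Module.Finite (MonoidAlgebra k (posMon χ)) (LinearMap.ker f) := hfin
  obtain ⟨S, hS⟩ := hfin'.fg_top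
  obtain ⟨a, ha⟩ := hf (show Triv k (posMon χ) from (1 : k))
  let B : Finset (posMon χ) := insert 1 ((insert a (S.image Subtype.val)).biUnion fun x =>
    Finset.univ.biUnion fun i => (x i).coeff.support)
  let E : Set G := (fun p : posMon χ × posMon χ => (p.1 : G)⁻¹ * p.2) '' (B ×ˢ B : Finset _)
  have h1B : (1 : posMon χ) ∈ B := Finset.mem_insert_self _ _
  have hE1 : ∀ h ∈ B, (h : G) ∈ E := fun h hh =>
    ⟨(1, h), by simpa using ⟨h1B, hh⟩, by simp⟩
  have hE2 : ∀ e ∈ E, e⁻¹ ∈ E := by
    rintro _ ⟨⟨x, y⟩, hxy, rfl⟩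
    refine ⟨(y, x), ?_, by simp⟩
    simp only [Finset.coe_product, Set.mem_prod, Finset.mem_coe] at hxy ⊢
    exact ⟨hxy.2, hxy.1⟩
  have hmem : ∀ x : Fin r →₀ MonoidAlgebra k (posMon χ), x ∈ insert a (S.image Subtype.val) →
      ∀ i, ∀ h ∈ (x i).coeff.support, h ∈ B := by
    intro x hx i h hh
    refine Finset.mem_insert_of_mem (Finset.mem_biUnion.2 ⟨x, hx, ?_⟩)
    exact Finset.mem_biUnion.2 ⟨i, Finset.mem_univ _, hh⟩
  have key : ∀ g : posMon χ, Conn E (up (val χ) 0) (g : G) 1 := by
    intro g
    let D : posMon χ → Prop := fun h => Conn E (up (val χ) 0) (g : G) (h : G)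
    have hD : ∀ h ∈ B, ∀ u : posMon χ, (D (u * h) ↔ D u) := by
      intro h hh u
      have hu : (u : G) ∈ up (val χ) 0 := u.2
      have huh : ((u * h : posMon χ) : G) ∈ up (val χ) 0 := (u * h).2
      constructor
      · intro hc
        refine Relation.ReflTransGen.tail hc ⟨huh, hu, ?_⟩
        have := hE2 _ (hE1 h hh)
        simpa using this
      · intro hc
        refine Relation.ReflTransGen.tail hc ⟨hu, huh, ?_⟩
        have := hE1 h hh
        simpa using this
    have hx : ∀ x : Fin r →₀ MonoidAlgebra k (posMon χ), x ∈ insert a (S.image Subtype.val) →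
        ∀ (u : posMon χ) (c : k), Phi D f (MonoidAlgebra.single u c • x) =
          c * (if D u then 1 else 0) * (show k from f x) := fun x hx u c =>
      Phi_smul D f u c x fun i h hh => hD h (hmem x hx i h hh) u
    have hker : ∀ y : LinearMap.ker f, ∀ q : MonoidAlgebra k (posMon χ),
        Phi D f (q • (y : Fin r →₀ MonoidAlgebra k (posMon χ))) = 0 := by
      intro y
      have hy : y ∈ Submodule.span (MonoidAlgebra k (posMon χ)) (S : Set (LinearMap.ker f)) := by
        rw [hS]
        exact Submodule.mem_top
      induction hy using Submodule.span_induction with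
      | mem y hy =>
        intro q
        induction q using MonoidAlgebra.induction_linear with
        | zero => simp
        | add p q hp hq => rw [add_smul, map_add, hp, hq, add_zero]
        | single u c =>
          rw [hx _ (Finset.mem_insert_of_mem (Finset.mem_image_of_mem _ hy)) u c]
          have : f (y : Fin r →₀ MonoidAlgebra k (posMon χ)) = 0 := y.2
          rw [this]
          exact mul_zero _
      | zero => intro q; simp
      | add x y _ _ hx hy =>
        intro q
        rw [Submodule.coe_add, smul_add, map_add, hx, hy, add_zero]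
      | smul p x _ hx =>
        intro q
        rw [Submodule.coe_smul, smul_smul, hx]
    have hga : MonoidAlgebra.single g (1 : k) • a - a ∈ LinearMap.ker f := by
      rw [LinearMap.mem_ker, map_sub, map_smul, sub_eq_zero]
      change (aug k (posMon χ) (MonoidAlgebra.single g 1) * (show k from f a) : k) = f a
      rw [aug_single, one_mul]
    have h2 := hker ⟨_, hga⟩ 1
    rw [one_smul] at h2
    change Phi D f (MonoidAlgebra.single g (1 : k) • a - a) = 0 at h2
    rw [map_sub, sub_eq_zero] at h2
    have h3 := hx a (Finset.mem_insert_self _ _) g 1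
    have h4 := hx a (Finset.mem_insert_self _ _) 1 1
    rw [show (MonoidAlgebra.single (1 : posMon χ) (1 : k)) = 1 from rfl, one_smul] at h4
    rw [h3, h4] at h2
    have hfa : (show k from f a) = 1 := ha
    rw [hfa, if_pos (show D g from Conn.rfl')] at h2
    by_contra hc
    have hc' : ¬ D 1 := fun h => hc (by simpa [D] using h)
    rw [if_neg hc'] at h2
    simp at h2
  refine ⟨E, (Finset.finite_toSet _).image _, fun g hg h hh => ?_⟩
  exact (key ⟨g, hg⟩).trans ((key ⟨h, hh⟩).symm hE2)

end Pool.Agent.Lib.MP_b1a3a4_al.MVS.HO.H31
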